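import Mathlib

/-!
# Spin Kostka polynomials are not palindromic

For the strict partition `ξ = (4,2)` and `μ = (3,2,1)` the spin Kostka polynomial is
`K⁻_{ξμ}(t) = 8 + 12 t + 4 t²`, whose coefficient sequence `(8, 12, 4)` is not palindromic.

Symmetric functions are handled in `N` variables `x_1, …, x_N` for every `N`: `schurQ N ξ` is the
Schur `Q`-function of the marked shifted tableaux with letters `1' < 1 < … < N' < N`, and
`hallP N μ` is the Hall-Littlewood polynomial `P_μ(x_1,…,x_N;t)` (zero if `μ` has more than `N`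
parts).
-/

open MvPolynomial

namespace Pool.Agent.Results.MP_2c9e21_co.SpinKostka

/-- the ring `ℤ[t]` -/
abbrev Zt : Type := Polynomial ℤ

/-- the variable `t` -/
noncomputable abbrev T : Zt := Polynomial.X

/-- the ring `ℤ[t][x_1, …, x_N]` -/
abbrev PR (N : ℕ) : Type := MvPolynomial (Fin N) Zt

/-- its field of fractions -/
abbrev FF (N : ℕ) : Type := FractionRing (PR N)

/-- The shifted diagram of `ξ`, with rows and columns numbered from `0`: row `i < ℓ(ξ)` consists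
of the cells `(i,j)`, `i ≤ j < ξ_i + i`. -/
def cells (ξ : List ℕ) : Finset (ℕ × ℕ) :=
  (Finset.range ξ.length).biUnion fun i =>
    (Finset.Ico i (ξ.getD i 0 + i)).image fun j => (i, j)

/-- Marked shifted tableaux of shape `ξ` with letters `1' < 1 < 2' < 2 < … < N' < N`. The letters
are numbered `0 < 1 < 2 < 3 < …` in this order, so that the letter `a` is primed iff `a` is even,
and it is `k'` or `k` with `k = a / 2 + 1`. Rows (left to right) and columns (top to bottom) are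
weakly increasing, a letter which occurs twice in a row is unprimed, and a letter which occurs
twice in a column is primed. -/
def IsTableau (N : ℕ) (ξ : List ℕ) (T : cells ξ → Fin (N * 2)) : Prop :=
  (∀ a b : cells ξ, a.1.1 = b.1.1 → a.1.2 < b.1.2 →
    T a ≤ T b ∧ (T a = T b → (T a).val % 2 = 1)) ∧
  (∀ a b : cells ξ, a.1.2 = b.1.2 → a.1.1 < b.1.1 →
    T a ≤ T b ∧ (T a = T b → (T a).val % 2 = 0))

open Classical in
/-- The Schur `Q`-function `Q_ξ(x_1, …, x_N)`: the sum of `x^{weight T}` over the marked shifted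
tableaux `T` (`(T c).divNat` is the index `(T c) / 2`, so the letters `k'` and `k` give `x_k`). -/
noncomputable def schurQ (N : ℕ) (ξ : List ℕ) : PR N :=
  ∑ T ∈ Finset.univ.filter (IsTableau N ξ), ∏ c, X (T c).divNat

/-- `v_m(t) = ∏_{i=1}^m (1 - t^i) / (1 - t) = ∏_{i=1}^m (1 + t + … + t^{i-1})` -/
noncomputable def vv (m : ℕ) : Zt :=
  ∏ i ∈ Finset.range m, ∑ j ∈ Finset.range (i + 1), Polynomial.X ^ j

/-- `v_μ(t) = ∏_k v_{m_k}(t)`, `m_k` the number of indices `i` among the `N` ones with `μ_i = k`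
(`k = 0` included) -/
noncomputable def vmu (N : ℕ) (μ : Fin N → ℕ) : Zt :=
  ∏ k ∈ Finset.univ.image μ, vv (Finset.univ.filter fun i => μ i = k).card

/-- the inclusion of `ℤ[t][x_1, …, x_N]` into its field of fractions -/
noncomputable def emb (N : ℕ) : PR N →+* FF N := algebraMap (PR N) (FF N)

/-- the variable `x_i` in the field of fractions -/
noncomputable def xx (N : ℕ) (i : Fin N) : FF N := emb N (X i)

/-- `t` in the field of fractions -/
noncomputable def tt (N : ℕ) : FF N := emb N (C Polynomial.X)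

/-- The Hall-Littlewood polynomial (Macdonald, III (2.1) and (2.2))
`P_μ(x_1,…,x_N;t) = v_μ(t)⁻¹ ∑_{w ∈ S_N} w (x^μ ∏_{i<j} (x_i - t x_j) / (x_i - x_j))`. -/
noncomputable def hall (N : ℕ) (μ : Fin N → ℕ) : FF N :=
  (emb N (C (vmu N μ)))⁻¹ * ∑ w : Equiv.Perm (Fin N),
    (∏ i, xx N (w i) ^ μ i) *
      ∏ i, ∏ j ∈ Finset.Ioi i,
        (xx N (w i) - tt N * xx N (w j)) / (xx N (w i) - xx N (w j))

/-- `P_μ(x_1,…,x_N;t)` for a partition `μ`, whose parts are listed in weakly decreasing order and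
followed by zeros; it is `0` if `μ` has more than `N` parts. -/
noncomputable def hallP (N : ℕ) {n : ℕ} (μ : Nat.Partition n) : FF N :=
  if μ.parts.card ≤ N then hall N (fun i => (μ.parts.sort (· ≥ ·)).getD i 0) else 0

/-- The identity `Q_ξ(x_1,…,x_N) = ∑_μ K(μ) P_μ(x_1,…,x_N;t)`, the sum over the partitions `μ` of
`n`. -/
def ExpandsIn (N : ℕ) (ξ : List ℕ) {n : ℕ} (K : Nat.Partition n → Polynomial ℤ) : Prop :=
  emb N (schurQ N ξ) = ∑ μ : Nat.Partition n, emb N (C (K μ)) * hallP N μ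

/-- `K` is the family of the spin Kostka polynomials `K⁻_{ξμ}(t)`, `|μ| = |ξ| = n`: the defining
identity `Q_ξ(x) = ∑_μ K⁻_{ξμ}(t) P_μ(x;t)` holds in every number `N` of variables. -/
def IsSpinKostka (ξ : List ℕ) {n : ℕ} (K : Nat.Partition n → Polynomial ℤ) : Prop :=
  ξ.sum = n ∧ ∀ N : ℕ, ExpandsIn N ξ K

/-- The polynomial `f` satisfies `t^m f(1/t) = f(t)` for some integer `m` (an identity of Laurent
polynomials; `LaurentPolynomial.T m` is `t^m` and `invert` substitutes `1/t` for `t`). -/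
def IsPalindromic (f : Polynomial ℤ) : Prop :=
  ∃ m : ℤ, LaurentPolynomial.T m * LaurentPolynomial.invert (Polynomial.toLaurent f) =
    Polynomial.toLaurent f

/-- the partition `(3,2,1)` of `6` -/
def p321 : Nat.Partition 6 := ⟨{3, 2, 1}, by decide, by decide⟩

/-! ### the Hall-Littlewood polynomials of degree 6 in three variables -/

theorem perm3 {M : Type*} [AddCommMonoid M] (g : Fin 3 → Fin 3 → Fin 3 → M) :
    ∑ w : Equiv.Perm (Fin 3), g (w 0) (w 1) (w 2) =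
      g 0 1 2 + g 0 2 1 + g 1 0 2 + g 1 2 0 + g 2 0 1 + g 2 1 0 := by
  have h : (Finset.univ : Finset (Equiv.Perm (Fin 3))).image (fun w => (w 0, w 1, w 2)) =
      {(0,1,2),(0,2,1),(1,0,2),(1,2,0),(2,0,1),(2,1,0)} := by decide
  have h2 : ∑ w : Equiv.Perm (Fin 3), g (w 0) (w 1) (w 2) =
      ∑ p ∈ (Finset.univ : Finset (Equiv.Perm (Fin 3))).image (fun w => (w 0, w 1, w 2)),
        g p.1 p.2.1 p.2.2 := by
    rw [Finset.sum_image]
    intro a _ b _ hab
    simp only [Prod.mk.injEq] at hab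
    ext i
    fin_cases i
    · simpa using congrArg Fin.val hab.1
    · simpa using congrArg Fin.val hab.2.1
    · simpa using congrArg Fin.val hab.2.2
  rw [h2, h]
  repeat rw [Finset.sum_insert (by decide)]
  rw [Finset.sum_singleton]
  simp only [add_assoc]

/-- the numerators -/
def Nn {F : Type*} [Field F] (t : F) (a b c : ℕ) (x y z : F) : F :=
  x ^ a * y ^ b * z ^ c * ((x - t * y) * (x - t * z) * (y - t * z))

theorem term_eq {F : Type*} [Field F] (t : F) (a b c : ℕ) (x y z : F) (v P : F)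
    (hxy : x ≠ y) (hxz : x ≠ z) (hyz : y ≠ z) (hv : v ≠ 0)
    (h : Nn t a b c x y z - Nn t a b c x z y - Nn t a b c y x z + Nn t a b c y z x
      + Nn t a b c z x y - Nn t a b c z y x = v * ((x - y) * (x - z) * (y - z)) * P) :
    let T : F → F → F → F := fun x y z => x ^ a * y ^ b * z ^ c *
      ((x - t * y) / (x - y) * ((x - t * z) / (x - z)) * ((y - t * z) / (y - z)))
    v⁻¹ * (T x y z + T x z y + T y x z + T y z x + T z x y + T z y x) = P := by
  intro T
  have h1 : x - y ≠ 0 := sub_ne_zero.2 hxy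
  have h2 : x - z ≠ 0 := sub_ne_zero.2 hxz
  have h3 : y - z ≠ 0 := sub_ne_zero.2 hyz
  have key : ∀ x y z : F, T x y z = Nn t a b c x y z / ((x - y) * (x - z) * (y - z)) := by
    intro x y z
    simp only [T, Nn]
    rw [div_mul_div_comm, div_mul_div_comm, mul_div_assoc']
  rw [key, key, key, key, key, key]
  have e1 : (x - z) * (x - y) * (z - y) = -((x - y) * (x - z) * (y - z)) := by ring
  have e2 : (y - x) * (y - z) * (x - z) = -((x - y) * (x - z) * (y - z)) := by ring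
  have e3 : (y - z) * (y - x) * (z - x) = ((x - y) * (x - z) * (y - z)) := by ring
  have e4 : (z - x) * (z - y) * (x - y) = ((x - y) * (x - z) * (y - z)) := by ring
  have e5 : (z - y) * (z - x) * (y - x) = -((x - y) * (x - z) * (y - z)) := by ring
  rw [e1, e2, e3, e4, e5]
  have h4 : (x - y) * (x - z) * (y - z) ≠ 0 := mul_ne_zero (mul_ne_zero h1 h2) h3
  rw [div_neg, div_neg, div_neg]
  have h5 : Nn t a b c x y z / ((x - y) * (x - z) * (y - z)) + -(Nn t a b c x z y / ((x - y) * (x - z) * (y - z)))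
      + -(Nn t a b c y x z / ((x - y) * (x - z) * (y - z))) + Nn t a b c y z x / ((x - y) * (x - z) * (y - z))
      + Nn t a b c z x y / ((x - y) * (x - z) * (y - z)) + -(Nn t a b c z y x / ((x - y) * (x - z) * (y - z)))
      = (Nn t a b c x y z - Nn t a b c x z y - Nn t a b c y x z + Nn t a b c y z x
      + Nn t a b c z x y - Nn t a b c z y x) / ((x - y) * (x - z) * (y - z)) := by ring
  rw [h5, h]
  field_simp


/-- symmetric combination of monomials of degree 6 in three variables -/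
def Ms {F : Type*} [CommRing F] (x y z : F) (c6 c51 c42 c411 c33 c321 c222 : F) : F :=
  c6 * (x ^ 6 + y ^ 6 + z ^ 6)
  + c51 * (x ^ 5 * y + x ^ 5 * z + y ^ 5 * x + y ^ 5 * z + z ^ 5 * x + z ^ 5 * y)
  + c42 * (x ^ 4 * y ^ 2 + x ^ 4 * z ^ 2 + y ^ 4 * x ^ 2 + y ^ 4 * z ^ 2 + z ^ 4 * x ^ 2
    + z ^ 4 * y ^ 2)
  + c411 * (x ^ 4 * y * z + x * y ^ 4 * z + x * y * z ^ 4)
  + c33 * (x ^ 3 * y ^ 3 + x ^ 3 * z ^ 3 + y ^ 3 * z ^ 3)
  + c321 * (x ^ 3 * y ^ 2 * z + x ^ 3 * y * z ^ 2 + x ^ 2 * y ^ 3 * z + x ^ 2 * y * z ^ 3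
    + x * y ^ 3 * z ^ 2 + x * y ^ 2 * z ^ 3)
  + c222 * (x ^ 2 * y ^ 2 * z ^ 2)

theorem hall3 (μ : Fin 3 → ℕ) (v P : FF 3) (hv : emb 3 (C (vmu 3 μ)) = v) (hv0 : v ≠ 0)
    (hP : let t := tt 3
      let x := xx 3 0
      let y := xx 3 1
      let z := xx 3 2
      Nn t (μ 0) (μ 1) (μ 2) x y z - Nn t (μ 0) (μ 1) (μ 2) x z y - Nn t (μ 0) (μ 1) (μ 2) y x z
      + Nn t (μ 0) (μ 1) (μ 2) y z x + Nn t (μ 0) (μ 1) (μ 2) z x y - Nn t (μ 0) (μ 1) (μ 2) z y x
      = v * ((x - y) * (x - z) * (y - z)) * P) :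
    hall 3 μ = P := by
  have hne : ∀ i j : Fin 3, i ≠ j → xx 3 i ≠ xx 3 j := by
    intro i j hij h
    apply hij
    have h2 : (X i : PR 3) = X j := IsFractionRing.injective (PR 3) (FF 3) h
    exact MvPolynomial.X_injective h2
  have h0 : Finset.Ioi (0 : Fin 3) = {1, 2} := by decide
  have h1 : Finset.Ioi (1 : Fin 3) = {2} := by decide
  have h2 : Finset.Ioi (2 : Fin 3) = ∅ := by decide
  unfold hall
  rw [hv]
  simp only [Fin.prod_univ_three, h0, h1, h2, Finset.prod_empty, Finset.prod_singleton, mul_one]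
  have h3 : ∀ w : Equiv.Perm (Fin 3), ∏ j ∈ ({1, 2} : Finset (Fin 3)),
      (xx 3 (w 0) - tt 3 * xx 3 (w j)) / (xx 3 (w 0) - xx 3 (w j)) =
      (xx 3 (w 0) - tt 3 * xx 3 (w 1)) / (xx 3 (w 0) - xx 3 (w 1)) *
      ((xx 3 (w 0) - tt 3 * xx 3 (w 2)) / (xx 3 (w 0) - xx 3 (w 2))) := by
    intro w
    rw [Finset.prod_pair (by decide)]
  simp only [h3]
  rw [perm3 (fun i j k => xx 3 i ^ μ 0 * xx 3 j ^ μ 1 * xx 3 k ^ μ 2 *
    ((xx 3 i - tt 3 * xx 3 j) / (xx 3 i - xx 3 j) * ((xx 3 i - tt 3 * xx 3 k) / (xx 3 i - xx 3 k)) *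
      ((xx 3 j - tt 3 * xx 3 k) / (xx 3 j - xx 3 k))))]
  exact term_eq (tt 3) (μ 0) (μ 1) (μ 2) (xx 3 0) (xx 3 1) (xx 3 2) v P
    (hne 0 1 (by decide)) (hne 0 2 (by decide)) (hne 1 2 (by decide)) hv0 hP

theorem vv1 : vv 1 = 1 := by simp [vv]
theorem vv2 : vv 2 = 1 + Polynomial.X := by simp [vv, Finset.prod_range_succ, Finset.sum_range_succ]
theorem vv3 : vv 3 = (1 + Polynomial.X) * (1 + Polynomial.X + Polynomial.X ^ 2) := by
  simp [vv, Finset.prod_range_succ, Finset.sum_range_succ]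

theorem v600 : vmu 3 ![6, 0, 0] = 1 + Polynomial.X := by
  have h : (Finset.univ : Finset (Fin 3)).image ![6, 0, 0] = {6, 0} := by decide
  unfold vmu
  rw [h, Finset.prod_pair (by decide)]
  have h1 : (Finset.univ.filter fun i : Fin 3 => ![6, 0, 0] i = 6).card = 1 := by decide
  have h2 : (Finset.univ.filter fun i : Fin 3 => ![6, 0, 0] i = 0).card = 2 := by decide
  rw [h1, h2, vv1, vv2, one_mul]

theorem emb_ne {p : Zt} (hp : p ≠ 0) : emb 3 (C p) ≠ 0 := by
  intro h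
  have h2 : (C p : PR 3) = 0 := IsFractionRing.injective (PR 3) (FF 3) (by rw [map_zero]; exact h)
  exact hp (by simpa using h2)

theorem t1_ne : (1 + Polynomial.X : Zt) ≠ 0 := by
  intro h
  have := congrArg (Polynomial.eval 0) h
  simp at this

theorem hallgen (a b c : ℕ) (p : Zt) (c6 c51 c42 c411 c33 c321 c222 : Zt)
    (hp : vmu 3 ![a, b, c] = p) (hp0 : p ≠ 0)
    (hP : ∀ t x y z : FF 3, ∀ φ : Zt →+* FF 3, φ T = t →
      Nn t a b c x y z - Nn t a b c x z y - Nn t a b c y x z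
      + Nn t a b c y z x + Nn t a b c z x y - Nn t a b c z y x
      = φ p * ((x - y) * (x - z) * (y - z)) *
        Ms x y z (φ c6) (φ c51) (φ c42) (φ c411) (φ c33) (φ c321) (φ c222)) :
    hall 3 ![a, b, c] = emb 3 (Ms (X 0) (X 1) (X 2) (C c6) (C c51) (C c42) (C c411) (C c33)
      (C c321) (C c222)) := by
  have h1 : emb 3 (Ms (X 0) (X 1) (X 2) (C c6) (C c51) (C c42) (C c411) (C c33)
      (C c321) (C c222)) = Ms (xx 3 0) (xx 3 1) (xx 3 2) (emb 3 (C c6)) (emb 3 (C c51))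
        (emb 3 (C c42)) (emb 3 (C c411)) (emb 3 (C c33)) (emb 3 (C c321)) (emb 3 (C c222)) := by
    simp only [Ms, map_add, map_mul, map_pow, xx]
  rw [h1]
  apply hall3 _ (emb 3 (C p))
  · rw [hp]
  · exact emb_ne hp0
  · exact hP (tt 3) (xx 3 0) (xx 3 1) (xx 3 2) ((emb 3).comp C) rfl

theorem vgen (a b c : ℕ) (s : Finset ℕ) (hs : (Finset.univ : Finset (Fin 3)).image ![a, b, c] = s) :
    vmu 3 ![a, b, c] = ∏ k ∈ s, vv (Finset.univ.filter fun i : Fin 3 => ![a, b, c] i = k).card := by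
  unfold vmu
  rw [hs]

theorem tsq_ne : ((1 + Polynomial.X) * (1 + Polynomial.X + Polynomial.X ^ 2) : Zt) ≠ 0 := by
  intro h
  have := congrArg (Polynomial.eval 0) h
  simp at this


theorem hall600 : hall 3 ![6, 0, 0] = emb 3 (Ms (X 0) (X 1) (X 2) (C 1) (C (1 - T)) (C (1 - T))
    (C (1 - 2 * T + T ^ 2)) (C (1 - T)) (C (1 - 2 * T + T ^ 2)) (C (1 - 2 * T + T ^ 2))) := by
  apply hallgen 6 0 0 (1 + T) _ _ _ _ _ _ _ _ t1_ne
  · intro t x y z φ hφ
    simp only [Nn, Ms, map_add, map_sub, map_mul, map_pow, map_one, hφ, map_ofNat, map_zero]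
    ring
  · rw [vgen 6 0 0 {6, 0} (by decide), Finset.prod_pair (by decide)]
    have h1 : (Finset.univ.filter fun i : Fin 3 => ![6, 0, 0] i = 6).card = 1 := by decide
    have h2 : (Finset.univ.filter fun i : Fin 3 => ![6, 0, 0] i = 0).card = 2 := by decide
    rw [h1, h2, vv1, vv2, one_mul]

theorem hall510 : hall 3 ![5, 1, 0] = emb 3 (Ms (X 0) (X 1) (X 2) (C 0) (C 1) (C (1 - T))
    (C (2 - 2 * T)) (C (1 - T)) (C (2 - 3 * T + T ^ 2)) (C (2 - 4 * T + 2 * T ^ 2))) := by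
  apply hallgen 5 1 0 1 _ _ _ _ _ _ _ _ one_ne_zero
  · intro t x y z φ hφ
    simp only [Nn, Ms, map_add, map_sub, map_mul, map_pow, map_one, hφ, map_ofNat, map_zero]
    ring
  · rw [vgen 5 1 0 {5, 1, 0} (by decide), Finset.prod_insert (by decide),
      Finset.prod_pair (by decide)]
    have h1 : (Finset.univ.filter fun i : Fin 3 => ![5, 1, 0] i = 5).card = 1 := by decide
    have h2 : (Finset.univ.filter fun i : Fin 3 => ![5, 1, 0] i = 1).card = 1 := by decide
    have h3 : (Finset.univ.filter fun i : Fin 3 => ![5, 1, 0] i = 0).card = 1 := by decide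
    rw [h1, h2, h3, vv1, one_mul, one_mul]

theorem hall420 : hall 3 ![4, 2, 0] = emb 3 (Ms (X 0) (X 1) (X 2) (C 0) (C 0) (C 1)
    (C (1 - T)) (C (1 - T)) (C (2 - 3 * T + T ^ 2)) (C (3 - 4 * T + 2 * T ^ 2 - T ^ 3))) := by
  apply hallgen 4 2 0 1 _ _ _ _ _ _ _ _ one_ne_zero
  · intro t x y z φ hφ
    simp only [Nn, Ms, map_add, map_sub, map_mul, map_pow, map_one, hφ, map_ofNat, map_zero]
    ring
  · rw [vgen 4 2 0 {4, 2, 0} (by decide), Finset.prod_insert (by decide),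
      Finset.prod_pair (by decide)]
    have h1 : (Finset.univ.filter fun i : Fin 3 => ![4, 2, 0] i = 4).card = 1 := by decide
    have h2 : (Finset.univ.filter fun i : Fin 3 => ![4, 2, 0] i = 2).card = 1 := by decide
    have h3 : (Finset.univ.filter fun i : Fin 3 => ![4, 2, 0] i = 0).card = 1 := by decide
    rw [h1, h2, h3, vv1, one_mul, one_mul]

theorem hall411 : hall 3 ![4, 1, 1] = emb 3 (Ms (X 0) (X 1) (X 2) (C 0) (C 0) (C 0)
    (C 1) (C 0) (C (1 - T)) (C (1 - 2 * T + T ^ 2))) := by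
  apply hallgen 4 1 1 (1 + T) _ _ _ _ _ _ _ _ t1_ne
  · intro t x y z φ hφ
    simp only [Nn, Ms, map_add, map_sub, map_mul, map_pow, map_one, hφ, map_ofNat, map_zero]
    ring
  · rw [vgen 4 1 1 {4, 1} (by decide), Finset.prod_pair (by decide)]
    have h1 : (Finset.univ.filter fun i : Fin 3 => ![4, 1, 1] i = 4).card = 1 := by decide
    have h2 : (Finset.univ.filter fun i : Fin 3 => ![4, 1, 1] i = 1).card = 2 := by decide
    rw [h1, h2, vv1, vv2, one_mul]

theorem hall330 : hall 3 ![3, 3, 0] = emb 3 (Ms (X 0) (X 1) (X 2) (C 0) (C 0) (C 0)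
    (C 0) (C 1) (C (1 - T)) (C (1 - 2 * T + T ^ 2))) := by
  apply hallgen 3 3 0 (1 + T) _ _ _ _ _ _ _ _ t1_ne
  · intro t x y z φ hφ
    simp only [Nn, Ms, map_add, map_sub, map_mul, map_pow, map_one, hφ, map_ofNat, map_zero]
    ring
  · rw [vgen 3 3 0 {0, 3} (by decide), Finset.prod_pair (by decide)]
    have h1 : (Finset.univ.filter fun i : Fin 3 => ![3, 3, 0] i = 0).card = 1 := by decide
    have h2 : (Finset.univ.filter fun i : Fin 3 => ![3, 3, 0] i = 3).card = 2 := by decide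
    rw [h1, h2, vv1, vv2, one_mul]

theorem hall321 : hall 3 ![3, 2, 1] = emb 3 (Ms (X 0) (X 1) (X 2) (C 0) (C 0) (C 0)
    (C 0) (C 0) (C 1) (C (2 - T - T ^ 2))) := by
  apply hallgen 3 2 1 1 _ _ _ _ _ _ _ _ one_ne_zero
  · intro t x y z φ hφ
    simp only [Nn, Ms, map_add, map_sub, map_mul, map_pow, map_one, hφ, map_ofNat, map_zero]
    ring
  · rw [vgen 3 2 1 {3, 2, 1} (by decide), Finset.prod_insert (by decide),
      Finset.prod_pair (by decide)]
    have h1 : (Finset.univ.filter fun i : Fin 3 => ![3, 2, 1] i = 3).card = 1 := by decide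
    have h2 : (Finset.univ.filter fun i : Fin 3 => ![3, 2, 1] i = 2).card = 1 := by decide
    have h3 : (Finset.univ.filter fun i : Fin 3 => ![3, 2, 1] i = 1).card = 1 := by decide
    rw [h1, h2, h3, vv1, one_mul, one_mul]

theorem hall222 : hall 3 ![2, 2, 2] = emb 3 (Ms (X 0) (X 1) (X 2) (C 0) (C 0) (C 0)
    (C 0) (C 0) (C 0) (C 1)) := by
  apply hallgen 2 2 2 ((1 + T) * (1 + T + T ^ 2)) _ _ _ _ _ _ _ _ tsq_ne
  · intro t x y z φ hφ
    simp only [Nn, Ms, map_add, map_sub, map_mul, map_pow, map_one, hφ, map_ofNat, map_zero]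
    ring
  · rw [vgen 2 2 2 {2} (by decide), Finset.prod_singleton]
    have h1 : (Finset.univ.filter fun i : Fin 3 => ![2, 2, 2] i = 2).card = 3 := by decide
    rw [h1, vv3]

/-! ### coefficients -/

noncomputable def expo (a b c : ℕ) : Fin 3 →₀ ℕ := Finsupp.equivFunOnFinite.symm ![a, b, c]

theorem expo_inj {a b c a' b' c' : ℕ} : expo a b c = expo a' b' c' ↔ a = a' ∧ b = b' ∧ c = c' := by
  unfold expo
  rw [Equiv.apply_eq_iff_eq]
  constructor
  · intro h
    exact ⟨by simpa using congrFun h 0, by simpa using congrFun h 1, by simpa using congrFun h 2⟩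
  · rintro ⟨rfl, rfl, rfl⟩
    rfl

theorem mono_eq (a b c : ℕ) : (X 0 ^ a * X 1 ^ b * X 2 ^ c : PR 3) = monomial (expo a b c) 1 := by
  rw [monomial_eq, Finsupp.prod_fintype _ _ (by intro i; exact pow_zero _), Fin.prod_univ_three]
  simp [expo]

theorem coeff_mono (a b c a' b' c' : ℕ) :
    coeff (expo a b c) (X 0 ^ a' * X 1 ^ b' * X 2 ^ c' : PR 3) =
      if a' = a ∧ b' = b ∧ c' = c then 1 else 0 := by
  rw [mono_eq, coeff_monomial]
  simp only [expo_inj]

theorem Ms_eq {F : Type*} [CommRing F] (x y z : F) (c6 c51 c42 c411 c33 c321 c222 : F) :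
    Ms x y z c6 c51 c42 c411 c33 c321 c222 =
  c6 * (x ^ 6 * y ^ 0 * z ^ 0) + c6 * (x ^ 0 * y ^ 6 * z ^ 0) + c6 * (x ^ 0 * y ^ 0 * z ^ 6)
  + c51 * (x ^ 5 * y ^ 1 * z ^ 0) + c51 * (x ^ 5 * y ^ 0 * z ^ 1) + c51 * (x ^ 1 * y ^ 5 * z ^ 0)
  + c51 * (x ^ 0 * y ^ 5 * z ^ 1) + c51 * (x ^ 1 * y ^ 0 * z ^ 5) + c51 * (x ^ 0 * y ^ 1 * z ^ 5)
  + c42 * (x ^ 4 * y ^ 2 * z ^ 0) + c42 * (x ^ 4 * y ^ 0 * z ^ 2) + c42 * (x ^ 2 * y ^ 4 * z ^ 0)
  + c42 * (x ^ 0 * y ^ 4 * z ^ 2) + c42 * (x ^ 2 * y ^ 0 * z ^ 4) + c42 * (x ^ 0 * y ^ 2 * z ^ 4)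
  + c411 * (x ^ 4 * y ^ 1 * z ^ 1) + c411 * (x ^ 1 * y ^ 4 * z ^ 1) + c411 * (x ^ 1 * y ^ 1 * z ^ 4)
  + c33 * (x ^ 3 * y ^ 3 * z ^ 0) + c33 * (x ^ 3 * y ^ 0 * z ^ 3) + c33 * (x ^ 0 * y ^ 3 * z ^ 3)
  + c321 * (x ^ 3 * y ^ 2 * z ^ 1) + c321 * (x ^ 3 * y ^ 1 * z ^ 2) + c321 * (x ^ 2 * y ^ 3 * z ^ 1)
  + c321 * (x ^ 2 * y ^ 1 * z ^ 3) + c321 * (x ^ 1 * y ^ 3 * z ^ 2) + c321 * (x ^ 1 * y ^ 2 * z ^ 3)
  + c222 * (x ^ 2 * y ^ 2 * z ^ 2) := by
  unfold Ms
  ring

noncomputable def MC (c6 c51 c42 c411 c33 c321 c222 : Zt) : PR 3 :=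
  Ms (X 0) (X 1) (X 2) (C c6) (C c51) (C c42) (C c411) (C c33) (C c321) (C c222)

theorem coeff_MC (c6 c51 c42 c411 c33 c321 c222 : Zt) (a b c : ℕ) :
    coeff (expo a b c) (MC c6 c51 c42 c411 c33 c321 c222) =
    (if 6 = a ∧ 0 = b ∧ 0 = c then c6 else 0) + (if 0 = a ∧ 6 = b ∧ 0 = c then c6 else 0)
    + (if 0 = a ∧ 0 = b ∧ 6 = c then c6 else 0)
    + (if 5 = a ∧ 1 = b ∧ 0 = c then c51 else 0) + (if 5 = a ∧ 0 = b ∧ 1 = c then c51 else 0)
    + (if 1 = a ∧ 5 = b ∧ 0 = c then c51 else 0) + (if 0 = a ∧ 5 = b ∧ 1 = c then c51 else 0)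
    + (if 1 = a ∧ 0 = b ∧ 5 = c then c51 else 0) + (if 0 = a ∧ 1 = b ∧ 5 = c then c51 else 0)
    + (if 4 = a ∧ 2 = b ∧ 0 = c then c42 else 0) + (if 4 = a ∧ 0 = b ∧ 2 = c then c42 else 0)
    + (if 2 = a ∧ 4 = b ∧ 0 = c then c42 else 0) + (if 0 = a ∧ 4 = b ∧ 2 = c then c42 else 0)
    + (if 2 = a ∧ 0 = b ∧ 4 = c then c42 else 0) + (if 0 = a ∧ 2 = b ∧ 4 = c then c42 else 0)
    + (if 4 = a ∧ 1 = b ∧ 1 = c then c411 else 0) + (if 1 = a ∧ 4 = b ∧ 1 = c then c411 else 0)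
    + (if 1 = a ∧ 1 = b ∧ 4 = c then c411 else 0)
    + (if 3 = a ∧ 3 = b ∧ 0 = c then c33 else 0) + (if 3 = a ∧ 0 = b ∧ 3 = c then c33 else 0)
    + (if 0 = a ∧ 3 = b ∧ 3 = c then c33 else 0)
    + (if 3 = a ∧ 2 = b ∧ 1 = c then c321 else 0) + (if 3 = a ∧ 1 = b ∧ 2 = c then c321 else 0)
    + (if 2 = a ∧ 3 = b ∧ 1 = c then c321 else 0) + (if 2 = a ∧ 1 = b ∧ 3 = c then c321 else 0)
    + (if 1 = a ∧ 3 = b ∧ 2 = c then c321 else 0) + (if 1 = a ∧ 2 = b ∧ 3 = c then c321 else 0)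
    + (if 2 = a ∧ 2 = b ∧ 2 = c then c222 else 0) := by
  unfold MC
  rw [Ms_eq]
  simp only [coeff_add, coeff_C_mul, coeff_mono, mul_ite, mul_one, mul_zero]

/-! ### the tableaux -/

def okr (a b : Fin (3 * 2)) : Prop := a ≤ b ∧ (a = b → a.val % 2 = 1)
def okc (a b : Fin (3 * 2)) : Prop := a ≤ b ∧ (a = b → a.val % 2 = 0)

instance : DecidableRel okr := fun a b => by unfold okr; infer_instance
instance : DecidableRel okc := fun a b => by unfold okc; infer_instance

theorem okr_trans {a b c : Fin (3 * 2)} (h1 : okr a b) (h2 : okr b c) : okr a c := by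
  refine ⟨h1.1.trans h2.1, fun h => ?_⟩
  subst h
  exact h1.2 (le_antisymm h1.1 h2.1)

def cellv : Fin 6 → cells [4, 2] :=
  ![⟨(0, 0), by decide⟩, ⟨(0, 1), by decide⟩, ⟨(0, 2), by decide⟩, ⟨(0, 3), by decide⟩,
    ⟨(1, 1), by decide⟩, ⟨(1, 2), by decide⟩]

theorem cellv_bij : Function.Bijective cellv := by decide

theorem cells_ind (p : cells [4, 2] → Prop) (h : ∀ i, p (cellv i)) : ∀ c, p c := by
  intro c
  obtain ⟨i, rfl⟩ := cellv_bij.2 c
  exact h i

theorem isTab_iff (S : cells [4, 2] → Fin (3 * 2)) : IsTableau 3 [4, 2] S ↔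
    okr (S (cellv 0)) (S (cellv 1)) ∧ okr (S (cellv 1)) (S (cellv 2)) ∧
    okr (S (cellv 2)) (S (cellv 3)) ∧ okr (S (cellv 4)) (S (cellv 5)) ∧
    okc (S (cellv 1)) (S (cellv 4)) ∧ okc (S (cellv 2)) (S (cellv 5)) := by
  constructor
  · rintro ⟨h1, h2⟩
    exact ⟨h1 _ _ (by decide) (by decide), h1 _ _ (by decide) (by decide),
      h1 _ _ (by decide) (by decide), h1 _ _ (by decide) (by decide),
      h2 _ _ (by decide) (by decide), h2 _ _ (by decide) (by decide)⟩
  · rintro ⟨h1, h2, h3, h4, h5, h6⟩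
    constructor
    · refine cells_ind _ fun i => cells_ind _ fun j => ?_
      fin_cases i <;> fin_cases j <;> intro e1 e2
      all_goals first
        | exact absurd e1 (by decide)
        | exact absurd e2 (by decide)
        | exact h1
        | exact h2
        | exact h3
        | exact h4
        | exact okr_trans h1 h2
        | exact okr_trans h2 h3
        | exact okr_trans h1 (okr_trans h2 h3)
    · refine cells_ind _ fun i => cells_ind _ fun j => ?_
      fin_cases i <;> fin_cases j <;> intro e1 e2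
      all_goals first
        | exact absurd e1 (by decide)
        | exact absurd e2 (by decide)
        | exact h5
        | exact h6

abbrev L6 : Type := Fin (3 * 2)

noncomputable def eqv : (cells [4, 2] → L6) ≃ L6 × L6 × L6 × L6 × L6 × L6 :=
  ((Equiv.ofBijective cellv cellv_bij).symm.arrowCongr (Equiv.refl L6)).trans
    { toFun := fun f => (f 0, f 1, f 2, f 3, f 4, f 5)
      invFun := fun p => ![p.1, p.2.1, p.2.2.1, p.2.2.2.1, p.2.2.2.2.1, p.2.2.2.2.2]
      left_inv := by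
        intro f
        funext i
        fin_cases i <;> rfl
      right_inv := by
        intro p
        rfl }

theorem eqv_apply (S : cells [4, 2] → L6) : eqv S =
    (S (cellv 0), S (cellv 1), S (cellv 2), S (cellv 3), S (cellv 4), S (cellv 5)) := by
  rfl

theorem Q_eq : schurQ 3 [4, 2] = ∑ a : L6, ∑ b : L6, if okr a b then ∑ c : L6, if okr b c then
    ∑ d : L6, if okr c d then ∑ e : L6, if okc b e then ∑ f : L6,
      (if okr e f ∧ okc c f then (X a.divNat * X b.divNat * X c.divNat * X d.divNat * X e.divNat *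
        X f.divNat : PR 3) else 0) else 0 else 0 else 0 else 0 := by
  classical
  unfold schurQ
  rw [Finset.sum_filter]
  rw [← Equiv.sum_comp eqv.symm]
  have key : ∀ p : L6 × L6 × L6 × L6 × L6 × L6,
      (if IsTableau 3 [4, 2] (eqv.symm p) then ∏ c, X ((eqv.symm p) c).divNat else (0 : PR 3)) =
      if okr p.1 p.2.1 then if okr p.2.1 p.2.2.1 then if okr p.2.2.1 p.2.2.2.1 then
      if okc p.2.1 p.2.2.2.2.1 then
      if okr p.2.2.2.2.1 p.2.2.2.2.2 ∧ okc p.2.2.1 p.2.2.2.2.2 then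
      (X p.1.divNat * X p.2.1.divNat * X p.2.2.1.divNat * X p.2.2.2.1.divNat *
        X p.2.2.2.2.1.divNat * X p.2.2.2.2.2.divNat : PR 3) else 0 else 0 else 0 else 0 else 0 := by
    intro p
    obtain ⟨S, rfl⟩ := eqv.surjective p
    rw [Equiv.symm_apply_apply, isTab_iff, eqv_apply]
    have hprod : ∏ c, X (S c).divNat = ∏ i : Fin 6, (X (S (cellv i)).divNat : PR 3) :=
      ((Equiv.ofBijective cellv cellv_bij).prod_comp fun c => (X (S c).divNat : PR 3)).symm
    rw [hprod, Fin.prod_univ_six]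
    by_cases h1 : okr (S (cellv 0)) (S (cellv 1)) <;>
    by_cases h2 : okr (S (cellv 1)) (S (cellv 2)) <;>
    by_cases h3 : okr (S (cellv 2)) (S (cellv 3)) <;>
    by_cases h4 : okr (S (cellv 4)) (S (cellv 5)) <;>
    by_cases h5 : okc (S (cellv 1)) (S (cellv 4)) <;>
    by_cases h6 : okc (S (cellv 2)) (S (cellv 5)) <;>
    simp [h1, h2, h3, h4, h5, h6]
  rw [Finset.sum_congr rfl fun p _ => key p]
  simp only [Fintype.sum_prod_type]
  refine Finset.sum_congr rfl fun a _ => Finset.sum_congr rfl fun b _ => ?_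
  split_ifs
  · refine Finset.sum_congr rfl fun c _ => ?_
    split_ifs
    · refine Finset.sum_congr rfl fun d _ => ?_
      split_ifs
      · refine Finset.sum_congr rfl fun e _ => ?_
        split_ifs
        · rfl
        · simp
      · simp
    · simp
  · simp

def b2n (i k : Fin 3) : ℕ := if i = k then 1 else 0

theorem X_eq (i : Fin 3) : (X i : PR 3) = X 0 ^ b2n i 0 * X 1 ^ b2n i 1 * X 2 ^ b2n i 2 := by
  fin_cases i <;> simp [b2n]

def wtk (k : Fin 3) (a b c d e f : L6) : ℕ :=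
  b2n a.divNat k + b2n b.divNat k + b2n c.divNat k + b2n d.divNat k + b2n e.divNat k
    + b2n f.divNat k

theorem prod6 (a b c d e f : L6) : (X a.divNat * X b.divNat * X c.divNat * X d.divNat *
    X e.divNat * X f.divNat : PR 3) =
    X 0 ^ wtk 0 a b c d e f * X 1 ^ wtk 1 a b c d e f * X 2 ^ wtk 2 a b c d e f := by
  rw [X_eq a.divNat, X_eq b.divNat, X_eq c.divNat, X_eq d.divNat, X_eq e.divNat, X_eq f.divNat]
  unfold wtk
  simp only [pow_add]
  ring

def cnt (m0 m1 m2 : ℕ) : ℕ :=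
  ∑ a : L6, ∑ b : L6, if okr a b then ∑ c : L6, if okr b c then
    ∑ d : L6, if okr c d then ∑ e : L6, if okc b e then ∑ f : L6,
      (if okr e f ∧ okc c f then (if wtk 0 a b c d e f = m0 ∧ wtk 1 a b c d e f = m1 ∧
        wtk 2 a b c d e f = m2 then 1 else 0) else 0) else 0 else 0 else 0 else 0

theorem coeff_Q (m0 m1 m2 : ℕ) : coeff (expo m0 m1 m2) (schurQ 3 [4, 2]) = (cnt m0 m1 m2 : Zt) := by
  rw [Q_eq]
  unfold cnt
  simp only [coeff_sum, prod6, apply_ite (coeff (expo m0 m1 m2)), coeff_mono, coeff_zero,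
    Nat.cast_sum, Nat.cast_ite, Nat.cast_one, Nat.cast_zero]

theorem cnt_vals : cnt 6 0 0 = 0 ∧ cnt 5 1 0 = 0 ∧ cnt 4 2 0 = 4 ∧ cnt 4 1 1 = 8 ∧
    cnt 3 3 0 = 8 ∧ cnt 3 2 1 = 24 ∧ cnt 2 2 2 = 40 := by
  decide +kernel

def fm (a b c : ℕ) : ℕ :=
    (if 6 = a ∧ 0 = b ∧ 0 = c then 0 else 0) + (if 0 = a ∧ 6 = b ∧ 0 = c then 0 else 0)
    + (if 0 = a ∧ 0 = b ∧ 6 = c then 0 else 0)
    + (if 5 = a ∧ 1 = b ∧ 0 = c then 0 else 0) + (if 5 = a ∧ 0 = b ∧ 1 = c then 0 else 0)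
    + (if 1 = a ∧ 5 = b ∧ 0 = c then 0 else 0) + (if 0 = a ∧ 5 = b ∧ 1 = c then 0 else 0)
    + (if 1 = a ∧ 0 = b ∧ 5 = c then 0 else 0) + (if 0 = a ∧ 1 = b ∧ 5 = c then 0 else 0)
    + (if 4 = a ∧ 2 = b ∧ 0 = c then 4 else 0) + (if 4 = a ∧ 0 = b ∧ 2 = c then 4 else 0)
    + (if 2 = a ∧ 4 = b ∧ 0 = c then 4 else 0) + (if 0 = a ∧ 4 = b ∧ 2 = c then 4 else 0)
    + (if 2 = a ∧ 0 = b ∧ 4 = c then 4 else 0) + (if 0 = a ∧ 2 = b ∧ 4 = c then 4 else 0)
    + (if 4 = a ∧ 1 = b ∧ 1 = c then 8 else 0) + (if 1 = a ∧ 4 = b ∧ 1 = c then 8 else 0)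
    + (if 1 = a ∧ 1 = b ∧ 4 = c then 8 else 0)
    + (if 3 = a ∧ 3 = b ∧ 0 = c then 8 else 0) + (if 3 = a ∧ 0 = b ∧ 3 = c then 8 else 0)
    + (if 0 = a ∧ 3 = b ∧ 3 = c then 8 else 0)
    + (if 3 = a ∧ 2 = b ∧ 1 = c then 24 else 0) + (if 3 = a ∧ 1 = b ∧ 2 = c then 24 else 0)
    + (if 2 = a ∧ 3 = b ∧ 1 = c then 24 else 0) + (if 2 = a ∧ 1 = b ∧ 3 = c then 24 else 0)
    + (if 1 = a ∧ 3 = b ∧ 2 = c then 24 else 0) + (if 1 = a ∧ 2 = b ∧ 3 = c then 24 else 0)
    + (if 2 = a ∧ 2 = b ∧ 2 = c then 40 else 0)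

theorem fm_cast (a b c : ℕ) : coeff (expo a b c) (MC 0 0 4 8 8 24 40) = (fm a b c : Zt) := by
  rw [coeff_MC]
  unfold fm
  push_cast
  rfl

theorem cnt_fm : ∀ a ∈ Finset.range 7, ∀ b ∈ Finset.range (7 - a), cnt a b (6 - a - b) =
    fm a b (6 - a - b) := by
  decide +kernel

theorem b2n_sum (i : Fin 3) : b2n i 0 + b2n i 1 + b2n i 2 = 1 := by
  fin_cases i <;> simp [b2n]

theorem wt_sum (a b c d e f : L6) :
    wtk 0 a b c d e f + wtk 1 a b c d e f + wtk 2 a b c d e f = 6 := by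
  have h1 := b2n_sum a.divNat
  have h2 := b2n_sum b.divNat
  have h3 := b2n_sum c.divNat
  have h4 := b2n_sum d.divNat
  have h5 := b2n_sum e.divNat
  have h6 := b2n_sum f.divNat
  unfold wtk
  omega

theorem cnt_zero (m0 m1 m2 : ℕ) (h : m0 + m1 + m2 ≠ 6) : cnt m0 m1 m2 = 0 := by
  have key : ∀ a b c d e f : L6, ¬ (wtk 0 a b c d e f = m0 ∧ wtk 1 a b c d e f = m1 ∧
        wtk 2 a b c d e f = m2) := by
    rintro a b c d e f ⟨h1, h2, h3⟩
    have := wt_sum a b c d e f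
    omega
  unfold cnt
  simp only [key, if_false, ite_self, Finset.sum_const_zero]

theorem fm_zero (m0 m1 m2 : ℕ) (h : m0 + m1 + m2 ≠ 6) : fm m0 m1 m2 = 0 := by
  unfold fm
  have key : ∀ x y z w : ℕ, x + y + z = 6 → (if x = m0 ∧ y = m1 ∧ z = m2 then w else 0) = 0 := by
    intro x y z w hx
    rw [if_neg]
    rintro ⟨rfl, rfl, rfl⟩
    exact h hx
  simp only [key _ _ _ _ (show 6 + 0 + 0 = 6 from rfl), key _ _ _ _ (show 0 + 6 + 0 = 6 from rfl),
    key _ _ _ _ (show 0 + 0 + 6 = 6 from rfl), key _ _ _ _ (show 5 + 1 + 0 = 6 from rfl),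
    key _ _ _ _ (show 5 + 0 + 1 = 6 from rfl), key _ _ _ _ (show 1 + 5 + 0 = 6 from rfl),
    key _ _ _ _ (show 0 + 5 + 1 = 6 from rfl), key _ _ _ _ (show 1 + 0 + 5 = 6 from rfl),
    key _ _ _ _ (show 0 + 1 + 5 = 6 from rfl), key _ _ _ _ (show 4 + 2 + 0 = 6 from rfl),
    key _ _ _ _ (show 4 + 0 + 2 = 6 from rfl), key _ _ _ _ (show 2 + 4 + 0 = 6 from rfl),
    key _ _ _ _ (show 0 + 4 + 2 = 6 from rfl), key _ _ _ _ (show 2 + 0 + 4 = 6 from rfl),
    key _ _ _ _ (show 0 + 2 + 4 = 6 from rfl), key _ _ _ _ (show 4 + 1 + 1 = 6 from rfl),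
    key _ _ _ _ (show 1 + 4 + 1 = 6 from rfl), key _ _ _ _ (show 1 + 1 + 4 = 6 from rfl),
    key _ _ _ _ (show 3 + 3 + 0 = 6 from rfl), key _ _ _ _ (show 3 + 0 + 3 = 6 from rfl),
    key _ _ _ _ (show 0 + 3 + 3 = 6 from rfl), key _ _ _ _ (show 3 + 2 + 1 = 6 from rfl),
    key _ _ _ _ (show 3 + 1 + 2 = 6 from rfl), key _ _ _ _ (show 2 + 3 + 1 = 6 from rfl),
    key _ _ _ _ (show 2 + 1 + 3 = 6 from rfl), key _ _ _ _ (show 1 + 3 + 2 = 6 from rfl),
    key _ _ _ _ (show 1 + 2 + 3 = 6 from rfl), key _ _ _ _ (show 2 + 2 + 2 = 6 from rfl)]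

theorem cnt_eq_fm (m0 m1 m2 : ℕ) : cnt m0 m1 m2 = fm m0 m1 m2 := by
  by_cases h : m0 + m1 + m2 = 6
  · obtain rfl : m2 = 6 - m0 - m1 := by omega
    exact cnt_fm m0 (Finset.mem_range.2 (by omega)) m1 (Finset.mem_range.2 (by omega))
  · exact (cnt_zero _ _ _ h).trans (fm_zero _ _ _ h).symm

theorem expo_eta (m : Fin 3 →₀ ℕ) : expo (m 0) (m 1) (m 2) = m := by
  ext i
  fin_cases i <;> rfl

theorem Q_MC : schurQ 3 [4, 2] = MC 0 0 4 8 8 24 40 := by
  apply MvPolynomial.ext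
  intro m
  rw [← expo_eta m, coeff_Q, fm_cast, cnt_eq_fm]

/-! ### linearity -/

theorem MC_smul (k c6 c51 c42 c411 c33 c321 c222 : Zt) :
    C k * MC c6 c51 c42 c411 c33 c321 c222 =
      MC (k * c6) (k * c51) (k * c42) (k * c411) (k * c33) (k * c321) (k * c222) := by
  unfold MC Ms
  simp only [map_mul]
  ring

theorem MC_add (c6 c51 c42 c411 c33 c321 c222 d6 d51 d42 d411 d33 d321 d222 : Zt) :
    MC c6 c51 c42 c411 c33 c321 c222 + MC d6 d51 d42 d411 d33 d321 d222 =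
      MC (c6 + d6) (c51 + d51) (c42 + d42) (c411 + d411) (c33 + d33) (c321 + d321)
        (c222 + d222) := by
  unfold MC Ms
  simp only [map_add]
  ring

theorem MC_inj {c6 c51 c42 c411 c33 c321 c222 d6 d51 d42 d411 d33 d321 d222 : Zt}
    (h : MC c6 c51 c42 c411 c33 c321 c222 = MC d6 d51 d42 d411 d33 d321 d222) :
    c6 = d6 ∧ c51 = d51 ∧ c42 = d42 ∧ c411 = d411 ∧ c33 = d33 ∧ c321 = d321 ∧ c222 = d222 := by
  refine ⟨?_, ?_, ?_, ?_, ?_, ?_, ?_⟩
  · have := congrArg (coeff (expo 6 0 0)) h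
    simpa [coeff_MC] using this
  · have := congrArg (coeff (expo 5 1 0)) h
    simpa [coeff_MC] using this
  · have := congrArg (coeff (expo 4 2 0)) h
    simpa [coeff_MC] using this
  · have := congrArg (coeff (expo 4 1 1)) h
    simpa [coeff_MC] using this
  · have := congrArg (coeff (expo 3 3 0)) h
    simpa [coeff_MC] using this
  · have := congrArg (coeff (expo 3 2 1)) h
    simpa [coeff_MC] using this
  · have := congrArg (coeff (expo 2 2 2)) h
    simpa [coeff_MC] using this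

/-! ### partitions of 6 with at most three parts -/

def p6 : Nat.Partition 6 := ⟨{6}, by decide, by decide⟩
def p51 : Nat.Partition 6 := ⟨{5, 1}, by decide, by decide⟩
def p42 : Nat.Partition 6 := ⟨{4, 2}, by decide, by decide⟩
def p411 : Nat.Partition 6 := ⟨{4, 1, 1}, by decide, by decide⟩
def p33 : Nat.Partition 6 := ⟨{3, 3}, by decide, by decide⟩
def p222 : Nat.Partition 6 := ⟨{2, 2, 2}, by decide, by decide⟩

theorem sort_eq' (l : List ℕ) (h : l.Pairwise (· ≥ ·)) : (l : Multiset ℕ).sort (· ≥ ·) = l := by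
  rw [Multiset.coe_sort]
  exact List.mergeSort_of_pairwise (by simpa using h)

theorem hallP_of (μ : Nat.Partition 6) (l : List ℕ) (hl : μ.parts = (l : Multiset ℕ))
    (hs : l.Pairwise (· ≥ ·)) (hc : l.length ≤ 3) (g : Fin 3 → ℕ) (hg : ∀ i : Fin 3, l.getD i 0 = g i) :
    hallP 3 μ = hall 3 g := by
  unfold hallP
  rw [if_pos (by rw [hl]; simpa using hc), hl, sort_eq' l hs]
  congr 1
  funext i
  exact hg i

theorem P6 : hallP 3 p6 = emb 3 (MC 1 (1 - T) (1 - T) (1 - 2 * T + T ^ 2) (1 - T)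
    (1 - 2 * T + T ^ 2) (1 - 2 * T + T ^ 2)) := by
  rw [hallP_of p6 [6] rfl (by decide) (by decide) ![6, 0, 0] (by decide), hall600]
  rfl

theorem P51 : hallP 3 p51 = emb 3 (MC 0 1 (1 - T) (2 - 2 * T) (1 - T) (2 - 3 * T + T ^ 2)
    (2 - 4 * T + 2 * T ^ 2)) := by
  rw [hallP_of p51 [5, 1] rfl (by decide) (by decide) ![5, 1, 0] (by decide), hall510]
  rfl

theorem P42 : hallP 3 p42 = emb 3 (MC 0 0 1 (1 - T) (1 - T) (2 - 3 * T + T ^ 2)
    (3 - 4 * T + 2 * T ^ 2 - T ^ 3)) := by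
  rw [hallP_of p42 [4, 2] rfl (by decide) (by decide) ![4, 2, 0] (by decide), hall420]
  rfl

theorem P411 : hallP 3 p411 = emb 3 (MC 0 0 0 1 0 (1 - T) (1 - 2 * T + T ^ 2)) := by
  rw [hallP_of p411 [4, 1, 1] rfl (by decide) (by decide) ![4, 1, 1] (by decide), hall411]
  rfl

theorem P33 : hallP 3 p33 = emb 3 (MC 0 0 0 0 1 (1 - T) (1 - 2 * T + T ^ 2)) := by
  rw [hallP_of p33 [3, 3] rfl (by decide) (by decide) ![3, 3, 0] (by decide), hall330]
  rfl

theorem P321 : hallP 3 p321 = emb 3 (MC 0 0 0 0 0 1 (2 - T - T ^ 2)) := by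
  rw [hallP_of p321 [3, 2, 1] rfl (by decide) (by decide) ![3, 2, 1] (by decide), hall321]
  rfl

theorem P222 : hallP 3 p222 = emb 3 (MC 0 0 0 0 0 0 1) := by
  rw [hallP_of p222 [2, 2, 2] rfl (by decide) (by decide) ![2, 2, 2] (by decide), hall222]
  rfl

theorem part_cases (μ : Nat.Partition 6) (h : μ.parts.card ≤ 3) :
    μ = p6 ∨ μ = p51 ∨ μ = p42 ∨ μ = p411 ∨ μ = p33 ∨ μ = p321 ∨ μ = p222 := by
  obtain ⟨s, hpos, hsum⟩ := μ
  have hs : ((s.sort (· ≥ ·) : List ℕ) : Multiset ℕ) = s := Multiset.sort_eq s _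
  have hp : (s.sort (· ≥ ·)).Pairwise (· ≥ ·) := Multiset.pairwise_sort s _
  generalize s.sort (· ≥ ·) = l at hs hp
  subst hs
  simp only [Multiset.coe_card] at h
  simp only [Multiset.sum_coe] at hsum
  have hpos' : ∀ i ∈ l, 0 < i := fun i hi => hpos (by simpa using hi)
  match l, h with
  | [], _ => simp at hsum
  | [a], _ =>
    simp at hsum
    subst hsum
    left
    rfl
  | [a, b], _ =>
    simp at hsum hp
    have ha := hpos' a (by simp)
    have hb := hpos' b (by simp)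
    have : b ≤ 3 := by omega
    obtain rfl : a = 6 - b := by omega
    interval_cases b
    · right; left; rfl
    · right; right; left; rfl
    · right; right; right; right; left; rfl
  | [a, b, c], _ =>
    simp at hsum hp
    have ha := hpos' a (by simp)
    have hb := hpos' b (by simp)
    have hc := hpos' c (by simp)
    have h1 : c ≤ 2 := by omega
    have h2 : b ≤ 3 := by omega
    obtain rfl : a = 6 - b - c := by omega
    interval_cases c <;> interval_cases b <;> first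
      | (exfalso; omega)
      | (right; right; right; left; rfl)
      | (right; right; right; right; right; left; rfl)
      | (right; right; right; right; right; right; rfl)


theorem sum3 (K : Nat.Partition 6 → Zt) :
    ∑ μ : Nat.Partition 6, emb 3 (C (K μ)) * hallP 3 μ =
      emb 3 (C (K p6)) * hallP 3 p6 + (emb 3 (C (K p51)) * hallP 3 p51 +
      (emb 3 (C (K p42)) * hallP 3 p42 + (emb 3 (C (K p411)) * hallP 3 p411 +
      (emb 3 (C (K p33)) * hallP 3 p33 + (emb 3 (C (K p321)) * hallP 3 p321 +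
      emb 3 (C (K p222)) * hallP 3 p222))))) := by
  have h : ∑ μ : Nat.Partition 6, emb 3 (C (K μ)) * hallP 3 μ =
      ∑ μ ∈ ({p6, p51, p42, p411, p33, p321, p222} : Finset (Nat.Partition 6)),
        emb 3 (C (K μ)) * hallP 3 μ := by
    symm
    apply Finset.sum_subset (Finset.subset_univ _)
    intro μ _ hμ
    have hc : ¬ μ.parts.card ≤ 3 := by
      intro hc
      apply hμ
      rcases part_cases μ hc with h | h | h | h | h | h | h <;> subst h <;> decide
    unfold hallP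
    rw [if_neg hc, mul_zero]
  rw [h, Finset.sum_insert (by decide), Finset.sum_insert (by decide),
    Finset.sum_insert (by decide), Finset.sum_insert (by decide), Finset.sum_insert (by decide),
    Finset.sum_insert (by decide), Finset.sum_singleton]

theorem MC_congr {c6 c51 c42 c411 c33 c321 c222 d6 d51 d42 d411 d33 d321 d222 : Zt}
    (h1 : c6 = d6) (h2 : c51 = d51) (h3 : c42 = d42) (h4 : c411 = d411) (h5 : c33 = d33)
    (h6 : c321 = d321) (h7 : c222 = d222) :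
    MC c6 c51 c42 c411 c33 c321 c222 = MC d6 d51 d42 d411 d33 d321 d222 := by
  rw [h1, h2, h3, h4, h5, h6, h7]

theorem rhs_MC (k6 k51 k42 k411 k33 k321 k222 : Zt) :
    emb 3 (C k6) * hallP 3 p6 + (emb 3 (C k51) * hallP 3 p51 +
      (emb 3 (C k42) * hallP 3 p42 + (emb 3 (C k411) * hallP 3 p411 +
      (emb 3 (C k33) * hallP 3 p33 + (emb 3 (C k321) * hallP 3 p321 +
      emb 3 (C k222) * hallP 3 p222))))) =
    emb 3 (MC k6 (k6 * (1 - T) + k51) (k6 * (1 - T) + k51 * (1 - T) + k42)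
      (k6 * (1 - 2 * T + T ^ 2) + k51 * (2 - 2 * T) + k42 * (1 - T) + k411)
      (k6 * (1 - T) + k51 * (1 - T) + k42 * (1 - T) + k33)
      (k6 * (1 - 2 * T + T ^ 2) + k51 * (2 - 3 * T + T ^ 2) + k42 * (2 - 3 * T + T ^ 2)
        + k411 * (1 - T) + k33 * (1 - T) + k321)
      (k6 * (1 - 2 * T + T ^ 2) + k51 * (2 - 4 * T + 2 * T ^ 2)
        + k42 * (3 - 4 * T + 2 * T ^ 2 - T ^ 3) + k411 * (1 - 2 * T + T ^ 2)
        + k33 * (1 - 2 * T + T ^ 2) + k321 * (2 - T - T ^ 2) + k222)) := by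
  rw [P6, P51, P42, P411, P33, P321, P222]
  simp only [← map_mul, ← map_add, MC_smul, MC_add]
  exact congrArg (emb 3) (MC_congr (by ring) (by ring) (by ring) (by ring) (by ring) (by ring)
    (by ring))

theorem uniq (K : Nat.Partition 6 → Zt)
    (h : emb 3 (schurQ 3 [4, 2]) = ∑ μ : Nat.Partition 6, emb 3 (C (K μ)) * hallP 3 μ) :
    K p321 = 8 + 12 * T + 4 * T ^ 2 := by
  rw [sum3, rhs_MC, Q_MC] at h
  have h2 := IsFractionRing.injective (PR 3) (FF 3) h
  obtain ⟨h6, h51, h42, h411, h33, h321, -⟩ := MC_inj h2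
  have e6 : K p6 = 0 := h6.symm
  rw [e6] at h51 h42 h411 h33 h321
  have e51 : K p51 = 0 := by linear_combination -h51
  rw [e51] at h42 h411 h33 h321
  have e42 : K p42 = 4 := by linear_combination -h42
  rw [e42] at h411 h33 h321
  have e411 : K p411 = 4 + 4 * T := by linear_combination -h411
  have e33 : K p33 = 4 + 4 * T := by linear_combination -h33
  rw [e411, e33] at h321
  linear_combination -h321

open Classical in
theorem exist3 : ∃ K : Nat.Partition 6 → Zt,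
    emb 3 (schurQ 3 [4, 2]) = ∑ μ : Nat.Partition 6, emb 3 (C (K μ)) * hallP 3 μ := by
  refine ⟨fun μ => if μ = p42 then 4 else if μ = p411 then 4 + 4 * T else
    if μ = p33 then 4 + 4 * T else if μ = p321 then 8 + 12 * T + 4 * T ^ 2 else
    if μ = p222 then 4 + 8 * T + 12 * T ^ 2 + 12 * T ^ 3 + 4 * T ^ 4 else 0, ?_⟩
  rw [sum3]
  have h1 : p6 ≠ p42 := by decide
  have h2 : p6 ≠ p411 := by decide
  have h3 : p6 ≠ p33 := by decide
  have h4 : p6 ≠ p321 := by decide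
  have h5 : p6 ≠ p222 := by decide
  have g1 : p51 ≠ p42 := by decide
  have g2 : p51 ≠ p411 := by decide
  have g3 : p51 ≠ p33 := by decide
  have g4 : p51 ≠ p321 := by decide
  have g5 : p51 ≠ p222 := by decide
  have k1 : p411 ≠ p42 := by decide
  have l1 : p33 ≠ p42 := by decide
  have l2 : p33 ≠ p411 := by decide
  have m1 : p321 ≠ p42 := by decide
  have m2 : p321 ≠ p411 := by decide
  have m3 : p321 ≠ p33 := by decide
  have n1 : p222 ≠ p42 := by decide
  have n2 : p222 ≠ p411 := by decide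
  have n3 : p222 ≠ p33 := by decide
  have n4 : p222 ≠ p321 := by decide
  simp only [h1, h2, h3, h4, h5, g1, g2, g3, g4, g5, k1, l1, l2, m1, m2, m3, n1, n2, n3, n4,
    if_false, if_true]
  rw [rhs_MC, Q_MC]
  exact congrArg (emb 3) (MC_congr (by ring) (by ring) (by ring) (by ring) (by ring) (by ring)
    (by ring))

theorem coeff_CT (r : ℤ) (n a : ℤ) :
    (LaurentPolynomial.C r * LaurentPolynomial.T n : LaurentPolynomial ℤ).coeff a =
      if n = a then r else 0 := by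
  rw [← LaurentPolynomial.smul_eq_C_mul, AddMonoidAlgebra.coeff_smul]
  simp [LaurentPolynomial.T_apply]

theorem not_pal : ¬ IsPalindromic (8 + 12 * Polynomial.X + 4 * Polynomial.X ^ 2) := by
  rintro ⟨m, hm⟩
  have hf : Polynomial.toLaurent (8 + 12 * Polynomial.X + 4 * Polynomial.X ^ 2 : Polynomial ℤ) =
      LaurentPolynomial.C 8 * LaurentPolynomial.T 0 + LaurentPolynomial.C 12 * LaurentPolynomial.T 1
      + LaurentPolynomial.C 4 * LaurentPolynomial.T 2 := by
    have h8 : (8 + 12 * Polynomial.X + 4 * Polynomial.X ^ 2 : Polynomial ℤ) =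
      Polynomial.C 8 * Polynomial.X ^ 0 + Polynomial.C 12 * Polynomial.X ^ 1 +
        Polynomial.C 4 * Polynomial.X ^ 2 := by
      rw [pow_zero, pow_one, mul_one]
      rfl
    rw [h8, map_add, map_add, Polynomial.toLaurent_C_mul_X_pow, Polynomial.toLaurent_C_mul_X_pow,
      Polynomial.toLaurent_C_mul_X_pow]
    rfl
  rw [hf] at hm
  simp only [map_add, map_mul, LaurentPolynomial.invert_C, LaurentPolynomial.invert_T] at hm
  have hm2 : LaurentPolynomial.C 8 * LaurentPolynomial.T (m + -0) +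
      LaurentPolynomial.C 12 * LaurentPolynomial.T (m + -1) +
      LaurentPolynomial.C 4 * LaurentPolynomial.T (m + -2) =
      LaurentPolynomial.C (8 : ℤ) * LaurentPolynomial.T 0 + LaurentPolynomial.C 12 * LaurentPolynomial.T 1
      + LaurentPolynomial.C 4 * LaurentPolynomial.T 2 := by
    rw [← hm, LaurentPolynomial.T_add, LaurentPolynomial.T_add, LaurentPolynomial.T_add]
    ring
  have h0 := congrArg (fun g : LaurentPolynomial ℤ => g.coeff 0) hm2
  have h1 := congrArg (fun g : LaurentPolynomial ℤ => g.coeff 1) hm2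
  simp only [AddMonoidAlgebra.coeff_add, Finsupp.add_apply, coeff_CT] at h0 h1
  by_cases hm0 : m = 0
  · subst hm0
    norm_num at h1
  · by_cases hm1 : m = 1
    · subst hm1
      norm_num at h0
    · by_cases hm3 : m = 2
      · subst hm3
        norm_num at h0
      · have a1 : ¬ (m + -0 = 0) := by omega
        have a2 : ¬ (m + -1 = 0) := by omega
        have a3 : ¬ (m + -2 = 0) := by omega
        rw [if_neg a1, if_neg a2, if_neg a3] at h0
        norm_num at h0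

/-- **The spin Kostka polynomial `K⁻_{(4,2),(3,2,1)}(t)` is `8 + 12 t + 4 t²`, which is not
palindromic.** First part: for every family `K` satisfying the definition of the spin Kostka
polynomials for `ξ = (4,2)`. Second and third part: in three variables the expansion of
`Q_{(4,2)}` exists, and already there the coefficient at `(3,2,1)` is forced. -/
theorem result :
    (∀ K : Nat.Partition 6 → Polynomial ℤ, IsSpinKostka [4, 2] K →
      K p321 = 8 + 12 * Polynomial.X + 4 * Polynomial.X ^ 2 ∧ ¬ IsPalindromic (K p321)) ∧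
    (∃ K : Nat.Partition 6 → Polynomial ℤ, ExpandsIn 3 [4, 2] K) ∧
    (∀ K : Nat.Partition 6 → Polynomial ℤ, ExpandsIn 3 [4, 2] K →
      K p321 = 8 + 12 * Polynomial.X + 4 * Polynomial.X ^ 2 ∧ ¬ IsPalindromic (K p321)) := by
  have key : ∀ K : Nat.Partition 6 → Polynomial ℤ, ExpandsIn 3 [4, 2] K →
      K p321 = 8 + 12 * Polynomial.X + 4 * Polynomial.X ^ 2 ∧ ¬ IsPalindromic (K p321) := by
    intro K h
    have h1 : K p321 = 8 + 12 * Polynomial.X + 4 * Polynomial.X ^ 2 := uniq K h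
    refine ⟨h1, ?_⟩
    rw [h1]
    exact not_pal
  exact ⟨fun K h => key K (h.2 3), exist3, key⟩

end Pool.Agent.Results.MP_2c9e21_co.SpinKostka
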